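import Pool.Agent.W586.GZ.Stm

/-!
# Project GZ, part REC2
-/

set_option autoImplicit false
open Filter Topology

namespace Pool.Agent.W174.GZ.Rec2

open Pool.Agent.W586.GZ

lemma card_fib (k : ℕ) (ρ : ℕ → ℕ) (I : Finset ℕ) :
    ∑ r ∈ Finset.range k, ((I.filter fun i => ρ i = r).card : ℝ) ≤ I.card := by
  have h1 : ∑ r ∈ Finset.range k, (I.filter fun i => ρ i = r).card ≤ I.card := by
    have h2 : ∀ r, (I.filter fun i => ρ i = r).card = ∑ i ∈ I, if ρ i = r then 1 else 0 :=
      fun r => Finset.card_filter _ _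
    simp_rw [h2]
    rw [Finset.sum_comm, Finset.card_eq_sum_ones]
    refine Finset.sum_le_sum fun i _ => ?_
    rw [Finset.sum_ite_eq]
    split_ifs <;> omega
  exact_mod_cast h1

lemma arith (L α C D a b c k e : ℝ) (s : ℕ) (hL : 0 ≤ L) (hC : 0 ≤ C) (hCD : C ≤ D) (hα : 0 ≤ α)
    (hb : b ≤ k) (hk : k ≤ L) (hca : c ≤ a) (he : e = 2 ^ s) :
    b * C + (α * c + C * c / e + k * (2 * D * (L + 1) ^ s)) ≤
      α * a + C * a / e + 3 * D * (L + 1) ^ (s + 1) := by
  have hD : 0 ≤ D := hC.trans hCD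
  have he0 : 0 < e := by rw [he]; positivity
  have h1 : b * C ≤ (L + 1) * D := by
    calc b * C ≤ L * C := mul_le_mul_of_nonneg_right (hb.trans hk) hC
      _ ≤ (L + 1) * D := mul_le_mul (by linarith) hCD hC (by linarith)
  have h2 : α * c ≤ α * a := mul_le_mul_of_nonneg_left hca hα
  have h3 : C * c / e ≤ C * a / e :=
    div_le_div_of_nonneg_right (mul_le_mul_of_nonneg_left hca hC) he0.le
  have hp : 1 ≤ (L + 1) ^ s := one_le_pow₀ (by linarith)
  have h4 : k * (2 * D * (L + 1) ^ s) ≤ (L + 1) * (2 * D * (L + 1) ^ s) :=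
    mul_le_mul_of_nonneg_right (by linarith) (by positivity)
  have h5 : (L + 1) * D ≤ D * (L + 1) ^ (s + 1) := by
    rw [pow_succ]
    have : 0 ≤ (L + 1) * D := by positivity
    nlinarith
  have h6 : (L + 1) * (2 * D * (L + 1) ^ s) = 2 * D * (L + 1) ^ (s + 1) := by
    rw [pow_succ]; ring
  linarith

theorem main : S_COMB2 → S_REC1 → S_REC2 := by
  intro hcomb hrec P K J v α C D hα hC hCD hv hvC hI hvt s I hIK t ht g hg
  have hREC := hrec P K J v α C D hα hC hCD hv hvC hI s
  obtain ⟨k, G, w, A, hk, hG, hs, hgeq, -⟩ := W.inv hg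
  have hG0 : ∀ r, r < k → ∀ n, 0 ≤ G r n := fun r hr => (hG r hr).nn
  obtain ⟨B, hBI, hBk, ρ, hρ⟩ := hcomb k K G v I (fun r n hr => hG0 r hr n) hs hv hIK
  have hm : (0 : ℝ) < P.m t := P.mpos' t
  have hkL : (k : ℝ) ≤ P.n (J - 1) := by
    have h1 : P.n t ≤ P.n (J - 1) := P.nlt.monotone (by omega)
    exact_mod_cast hk.trans h1
  have hD : 0 ≤ D := hC.trans hCD
  -- the exceptional vectors
  have hB : ev g (fun n => ∑ i ∈ B, v i n) ≤ B.card * C / P.m t := by
    refine (ev_sum_right B g hg.nn v).trans ?_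
    have h1 : ∑ i ∈ B, ev g (v i) ≤ ∑ i ∈ B, C / P.m t := by
      refine Finset.sum_le_sum fun i hi => hvt i ?_ t ht g hg
      exact Finset.mem_range.1 (hIK (hBI hi))
    refine h1.trans (le_of_eq ?_)
    rw [Finset.sum_const, nsmul_eq_mul]
    ring
  -- the others
  have hr : ∀ r, r < k → ev (G r) (fun n => ∑ i ∈ I \ B, v i n) ≤
      α * ((I \ B).filter fun i => ρ i = r).card +
        C * ((I \ B).filter fun i => ρ i = r).card / 2 ^ s +
        2 * D * ((P.n (J - 1) : ℝ) + 1) ^ s := by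
    intro r hrk
    have h1 : ev (G r) (fun n => ∑ i ∈ I \ B, v i n) =
        ev (G r) (fun n => ∑ i ∈ (I \ B).filter (fun i => ρ i = r), v i n) := by
      refine ev_congr _ _ _ fun n hn => ?_
      congr 1
      symm
      refine Finset.sum_subset (Finset.filter_subset _ _) fun i hi hi' => ?_
      have h2 := Finset.mem_sdiff.1 hi
      have h3 : r ≠ ρ i := by
        intro h
        exact hi' (Finset.mem_filter.2 ⟨hi, h.symm⟩)
      exact hρ i h2.1 h2.2 r hrk h3 n hn
    rw [h1]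
    refine hREC _ ?_ (G r) ⟨w r, hG r hrk⟩
    exact (Finset.filter_subset _ _).trans (Finset.sdiff_subset.trans hIK)
  have hsum : ∑ r ∈ Finset.range k, ev (G r) (fun n => ∑ i ∈ I \ B, v i n) ≤
      α * (I \ B).card + C * (I \ B).card / 2 ^ s +
        k * (2 * D * ((P.n (J - 1) : ℝ) + 1) ^ s) := by
    refine (Finset.sum_le_sum fun r hrk => hr r (Finset.mem_range.1 hrk)).trans ?_
    rw [Finset.sum_add_distrib, Finset.sum_add_distrib, ← Finset.mul_sum, ← Finset.sum_div,
      ← Finset.mul_sum, Finset.sum_const, Finset.card_range, nsmul_eq_mul]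
    have hc := card_fib k ρ (I \ B)
    have h1 := mul_le_mul_of_nonneg_left hc hα
    have h2 : C * ∑ r ∈ Finset.range k, (((I \ B).filter fun i => ρ i = r).card : ℝ) / 2 ^ s ≤
        C * (I \ B).card / 2 ^ s := by
      rw [← Finset.sum_div, ← mul_div_assoc]
      exact div_le_div_of_nonneg_right (mul_le_mul_of_nonneg_left hc hC) (by positivity)
    have h3 : (C * ∑ r ∈ Finset.range k, (((I \ B).filter fun i => ρ i = r).card : ℝ)) / 2 ^ s ≤
        C * (I \ B).card / 2 ^ s :=
      div_le_div_of_nonneg_right (mul_le_mul_of_nonneg_left hc hC) (by positivity)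
    linarith
  have hO : ev g (fun n => ∑ i ∈ I \ B, v i n) ≤
      (α * (I \ B).card + C * (I \ B).card / 2 ^ s +
        k * (2 * D * ((P.n (J - 1) : ℝ) + 1) ^ s)) / P.m t := by
    rw [hgeq]
    refine (ev_rs_le _ ?_ A _).trans ?_
    · intro i
      rw [Finsupp.smul_apply, Finsupp.finsetSum_apply, smul_eq_mul]
      exact mul_nonneg (inv_nonneg.mpr (P.mposQ _).le)
        (Finset.sum_nonneg fun l hl => hG0 l (Finset.mem_range.mp hl) i)
    · rw [ev_smul, ev_sum]
      push_cast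
      rw [div_eq_inv_mul]
      exact mul_le_mul_of_nonneg_left hsum (inv_nonneg.mpr hm.le)
  have hsplit : ev g (fun n => ∑ i ∈ I, v i n) ≤
      ev g (fun n => ∑ i ∈ B, v i n) + ev g (fun n => ∑ i ∈ I \ B, v i n) := by
    have h1 : (fun n => ∑ i ∈ I, v i n) = fun n => ∑ i ∈ B, v i n + ∑ i ∈ I \ B, v i n := by
      funext n
      rw [add_comm]
      exact (Finset.sum_sdiff hBI).symm
    rw [h1]
    exact ev_add_right g hg.nn _ _
  refine hsplit.trans ((add_le_add hB hO).trans ?_)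
  rw [← add_div]
  refine div_le_div_of_nonneg_right ?_ hm.le
  refine arith (P.n (J - 1)) α C D I.card B.card (I \ B).card k (2 ^ s) s (Nat.cast_nonneg _) hC hCD
    hα (by exact_mod_cast hBk) hkL ?_ rfl
  exact_mod_cast Finset.card_le_card Finset.sdiff_subset

end Pool.Agent.W174.GZ.Rec2
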